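import Pool.Agent.W533.K.Final1
import Pool.Agent.W533.K.All

/-!
# MP_caca3f_an : `U_D(k)` is polylogarithmic in `k` for `D = 1` and up to `D = 1 + c / log k`

`U_D(k)` is the largest Euclidean distortion of a union of `k` subsets of a common metric
space, each of Euclidean distortion at most `D`.  We prove `U_D(k) ≤ C (1 + log k)^(7/2)` for all
`k ≥ 1` and all `1 ≤ D ≤ 1 + 1 / (40 (1 + log k))`.
-/

namespace Pool.Agent.Results.MP_caca3f_an.PolylogNearIsometric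

open scoped ENNReal
open Set Pool.Agent.W533.K

universe u

/-- `X` embeds into some Hilbert space with distortion `D`: there are a map `f : X → H` into a
Hilbert space and a scale `s > 0` with `s d(x,y) ≤ ‖f x - f y‖ ≤ s D d(x,y)`. -/
def EmbedsWithDistortion (X : Type u) [MetricSpace X] (D : ℝ) : Prop :=
  ∃ (H : Type u) (_ : NormedAddCommGroup H) (_ : InnerProductSpace ℝ H) (_ : CompleteSpace H)
    (f : X → H) (s : ℝ), 0 < s ∧
      ∀ x y, s * dist x y ≤ ‖f x - f y‖ ∧ ‖f x - f y‖ ≤ s * D * dist x y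

/-- The Euclidean distortion `c₂(X) ∈ [1,∞]`: the infimum of all `D ≥ 1` such that `X` embeds
into a Hilbert space with distortion `D` (`∞` if there is no such `D`). -/
noncomputable def c2 (X : Type u) [MetricSpace X] : ℝ≥0∞ :=
  ⨅ (D : ℝ) (_ : 1 ≤ D) (_ : EmbedsWithDistortion X D), ENNReal.ofReal D

/-- `U_D(k)`: the supremum of `c₂(A₁ ∪ ⋯ ∪ A_k)` over all metric spaces `X` and all subsets
`A₁, …, A_k` of `X` with `c₂(A_i) ≤ D` for every `i`. -/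
noncomputable def U (D : ℝ) (k : ℕ) : ℝ≥0∞ :=
  ⨆ (X : Type u) (_ : MetricSpace X) (A : Fin k → Set X)
    (_ : ∀ i, c2 (A i) ≤ ENNReal.ofReal D), c2 (⋃ i, A i : Set X)

/-- From `c₂(A) ≤ D` to maps of distortion less than `D'` for every `D' > D`. -/
lemma pieces {X : Type u} [MetricSpace X] {D : ℝ} (hD : 1 ≤ D) (h : c2 X ≤ ENNReal.ofReal D)
    (D' : ℝ) (hD' : D < D') : ∃ D1, 1 ≤ D1 ∧ D1 < D' ∧ EmbedsWithDistortion X D1 := by
  have hD'0 : 0 < D' := by linarith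
  have hlt : c2 X < ENNReal.ofReal D' :=
    lt_of_le_of_lt h ((ENNReal.ofReal_lt_ofReal_iff hD'0).mpr hD')
  obtain ⟨D1, hlt1⟩ := iInf_lt_iff.mp hlt
  obtain ⟨hD1, hlt2⟩ := iInf_lt_iff.mp hlt1
  obtain ⟨hemb, hlt3⟩ := iInf_lt_iff.mp hlt2
  exact ⟨D1, hD1, (ENNReal.ofReal_lt_ofReal_iff hD'0).mp hlt3, hemb⟩

lemma PieceEmb.mono {X : Type u} [MetricSpace X] {D D' : ℝ} (h : D ≤ D') {A : Set X}
    (hA : PieceEmb D A) : PieceEmb D' A := by
  obtain ⟨m, f, hf⟩ := hA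
  refine ⟨m, f, fun x hx y hy => ⟨(hf x hx y hy).1, (hf x hx y hy).2.trans ?_⟩⟩
  exact mul_le_mul_of_nonneg_right h dist_nonneg

theorem main (hCpt : Cpt.{u}) (hCoord : Coord.{u, u}) :
    ∃ C : ℝ, 1 ≤ C ∧ ∀ k : ℕ, 1 ≤ k → ∀ D : ℝ, 1 ≤ D →
      D ≤ 1 + 1 / (40 * (1 + Real.log k)) →
      U.{u} D k ≤ ENNReal.ofReal (C * (1 + Real.log k) ^ (7 / 2 : ℝ)) := by
  obtain ⟨C, hC, H⟩ := hCpt
  have hC1 : C ≤ max C 1 := le_max_left _ _
  have hC2 : 1 ≤ max C 1 := le_max_right _ _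
  refine ⟨12 * max C 1, by linarith, fun k hk D hD hD2 => ?_⟩
  have hk1 : (1 : ℝ) ≤ k := by exact_mod_cast hk
  have hlk : 0 ≤ Real.log k := Real.log_nonneg hk1
  have hpow : (1 : ℝ) ≤ (1 + Real.log k) ^ (7 / 2 : ℝ) :=
    Real.one_le_rpow (by linarith) (by norm_num)
  have hell : ell k ^ (7 / 2 : ℝ) ≤ 12 * (1 + Real.log k) ^ (7 / 2 : ℝ) := ell_rpow_le hk
  have hell0 : 0 < ell k := by linarith [one_le_ell_arg hk]
  have hell7 : 0 ≤ ell k ^ (7 / 2 : ℝ) := Real.rpow_nonneg hell0.le _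
  have hD3 : D < 1 + 1 / (16 * ell k) := by
    have h1 : 16 * ell k < 40 * (1 + Real.log k) := by linarith [ell_le hk]
    have h2 : 1 / (40 * (1 + Real.log k)) < 1 / (16 * ell k) :=
      one_div_lt_one_div_of_lt (by positivity) h1
    linarith
  refine iSup_le fun X => iSup_le fun mX => iSup_le fun A => iSup_le fun hA => ?_
  set Y : Set X := ⋃ i, A i with hY
  have hpe : ∀ i (T : Finset Y),
      PieceEmb (1 + 1 / (16 * ell k)) ({y : Y | (y : X) ∈ A i} ∩ (T : Set Y)) := by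
    intro i T
    obtain ⟨D1, hD1, hD1', K, i1, i2, i3, f, s, hs, hf⟩ := pieces hD (hA i) _ hD3
    have := hCoord Y inferInstance {y : Y | (y : X) ∈ A i} D1 s K i1 i2
      (fun y => f ⟨((y : Y) : X), y.2⟩) hs
      (fun x y => hf ⟨((x : Y) : X), x.2⟩ ⟨((y : Y) : X), y.2⟩) T
    exact PieceEmb.mono hD1'.le this
  obtain ⟨K, i1, i2, i3, Φ, hΦ⟩ := H k hk Y inferInstance (fun i => {y : Y | (y : X) ∈ A i})
    (1 + 1 / (16 * ell k)) (by have : 0 ≤ 1 / (16 * ell k) := by positivity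
                               linarith) le_rfl (by
      ext y
      simp only [mem_iUnion, mem_setOf_eq, mem_univ, iff_true]
      exact mem_iUnion.mp y.2) hpe
  refine iInf_le_of_le (12 * max C 1 * (1 + Real.log k) ^ (7 / 2 : ℝ)) ?_
  refine iInf_le_of_le (by nlinarith) (iInf_le_of_le ?_ le_rfl)
  refine ⟨K, i1, i2, i3, Φ, 1, one_pos, fun x y => ?_⟩
  obtain ⟨h1, h2⟩ := hΦ x y
  refine ⟨by rw [one_mul]; exact h1, h2.trans ?_⟩
  rw [one_mul]
  refine mul_le_mul_of_nonneg_right ?_ dist_nonneg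
  calc C * ell k ^ (7 / 2 : ℝ) ≤ max C 1 * (12 * (1 + Real.log k) ^ (7 / 2 : ℝ)) :=
        mul_le_mul hC1 hell hell7 (by linarith)
    _ = _ := by ring

/-- `U_D(k) ≤ C (1 + log k)^(7/2)` for all `k ≥ 1` and `1 ≤ D ≤ 1 + 1 / (40 (1 + log k))`. -/
theorem result :
    ∃ C : ℝ, 1 ≤ C ∧ ∀ k : ℕ, 1 ≤ k → ∀ D : ℝ, 1 ≤ D →
      D ≤ 1 + 1 / (40 * (1 + Real.log k)) →
      U.{u} D k ≤ ENNReal.ofReal (C * (1 + Real.log k) ^ (7 / 2 : ℝ)) :=
  main cptAll Pool.Agent.W585.UK.coord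

end Pool.Agent.Results.MP_caca3f_an.PolylogNearIsometric
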